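import Pool.Agent.TH690.PF.Smooth
import Pool.Agent.X321.UP.Main
set_option autoImplicit false

/-!
The limit of the regulator matrix for the fibrations over products of lines.
-/

namespace Pool.Agent.X321.MF

open Pool.Agent.TH690.PF

open Pool.Agent.TH826.MK (KQ symb Unramified Torus)

open Pool.Agent.X321.DC (exists_near_one det_div)

variable {K : Type*} [Field K] {n q : ℕ} {m : Fin n → ℕ}
  {a : (k : Fin n) → Fin (m k + 1) → K}

theorem exists_tori_limit (w : Fin q → ℕ) (σ : K →+* ℂ)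
    (ha : ∀ k, Function.Injective (a k)) {ε : ℝ} (hε : 0 < ε) :
    ∃ C : ℝ, 1 < C ∧ ∀ lam : K, C ≤ ‖σ lam‖ →
      ∃ Γ : ((k : Fin n) → Fin (m k)) → Torus (POpen w (mPhi lam a)) (n + q),
        (∀ t θ x, (Γ t).e θ (pcst w (mPhi lam a) x) = σ x) ∧
        (∀ t i, |(Γ t).reg (symb (pent w lam a i)) /
            ((2 * Real.pi) ^ (n + q) * Real.log ‖σ lam‖) - (if t = i then 1 else 0)| ≤ ε) ∧
        |(Matrix.of fun t i : (k : Fin n) → Fin (m k) =>
          (Γ t).reg (symb (pent w lam a i))).det /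
          ((2 * Real.pi) ^ (n + q) * Real.log ‖σ lam‖) ^ (∏ k, m k) - 1| ≤ ε := by
  classical
  have hpi : (0 : ℝ) < (2 * Real.pi) ^ (n + q) := by
    have := Real.pi_pos
    positivity
  obtain ⟨δ, hδ, hδε, hnear⟩ := exists_near_one ((k : Fin n) → Fin (m k)) hε
  choose Λ hΛ1 hΛ using fun t : (k : Fin n) → Fin (m k) =>
    Pool.Agent.TH690.PF.exists_torus w σ ha t (ε := δ * (2 * Real.pi) ^ (n + q)) (by positivity)
  have hsum : 0 ≤ ∑ t, |Λ t| := Finset.sum_nonneg fun J _ => abs_nonneg _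
  have hΛC : ∀ t, Λ t ≤ ∑ t, |Λ t| + 2 := by
    intro t
    have h1 := Finset.single_le_sum (f := fun t => |Λ t|) (fun t _ => abs_nonneg _)
      (Finset.mem_univ t)
    have h2 := le_abs_self (Λ t)
    have h3 : |Λ t| ≤ ∑ t, |Λ t| := h1
    linarith
  refine ⟨∑ t, |Λ t| + 2, by linarith, fun lam hlam => ?_⟩
  choose Γ hΓ1 hΓ2 using fun t => hΛ t lam ((hΛC t).trans hlam)
  have hs : 0 < Real.log ‖σ lam‖ := Real.log_pos (by linarith)
  have hent : ∀ t i, |(Γ t).reg (symb (pent w lam a i)) /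
      ((2 * Real.pi) ^ (n + q) * Real.log ‖σ lam‖) - (if t = i then 1 else 0)| ≤ δ := by
    intro t i
    have h2 := hΓ2 t i
    rw [det_RP] at h2
    exact Pool.Agent.X321.UP.div_form hpi h2
  refine ⟨Γ, hΓ1, fun t i => (hent t i).trans hδε, ?_⟩
  have hcard : Fintype.card ((k : Fin n) → Fin (m k)) = ∏ k, m k := by simp
  rw [← hcard, det_div _ (by positivity)]
  exact hnear _ fun t i => hent t i

end Pool.Agent.X321.MF
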